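import Mathlib
import Pool.Agent.H50.Bif1

namespace Pool.Agent.Results.MP_025584_ag.Counter

open MvPolynomial Set Filter Topology Pool.Agent.H50.Bif
open scoped ContDiff Manifold

/-- `p` restricted to `A` is a trivial smooth fibration over `U`: there is a smooth manifold `M` and
a smooth bijection `φ : A → U × M` with smooth inverse `ψ` whose first component is `p`. -/
def TrivOver {E : Type} [NormedAddCommGroup E] [NormedSpace ℝ E] (p : E → ℝ) (A : Set E)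
    (U : Set ℝ) : Prop :=
  ∃ (H : Type) (_ : NormedAddCommGroup H) (_ : NormedSpace ℝ H) (M : Type)
    (_ : TopologicalSpace M) (_ : ChartedSpace H M) (_ : IsManifold 𝓘(ℝ, H) ∞ M)
    (φ : E → ℝ × M) (ψ : ℝ × M → E),
    ContMDiffOn 𝓘(ℝ, E) (𝓘(ℝ, ℝ).prod 𝓘(ℝ, H)) ∞ φ A ∧
    ContMDiffOn (𝓘(ℝ, ℝ).prod 𝓘(ℝ, H)) 𝓘(ℝ, E) ∞ ψ (U ×ˢ univ) ∧
    MapsTo φ A (U ×ˢ univ) ∧ MapsTo ψ (U ×ˢ univ) A ∧ InvOn ψ φ A (U ×ˢ univ) ∧
    ∀ x ∈ A, (φ x).1 = p x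

variable {n : ℕ} (P : MvPolynomial (Fin n) ℝ)

/-- Topological triviality at infinity at `t₀`. -/
def TrivialAtInfinity (t₀ : ℝ) : Prop :=
  ∃ K : Set (Fin n → ℝ), IsCompact K ∧ ∃ ε > 0, ∀ t ∈ Ioo (t₀ - ε) (t₀ + ε),
    ∃ U : Set ℝ, IsOpen U ∧ t ∈ U ∧ U ⊆ Ioo (t₀ - ε) (t₀ + ε) ∧
      TrivOver (fun x => eval x P) ((fun x => eval x P) ⁻¹' U \ K) U

/-- The bifurcation values at infinity. -/
def Binf : Set ℝ := {t | ¬ TrivialAtInfinity P t}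

/-- The Milnor set: `grad P (x)` and `x - a` are linearly dependent. -/
def Milnor (a : Fin n → ℝ) : Set (Fin n → ℝ) :=
  {x | ¬ LinearIndependent ℝ ![fun i => eval x (pderiv i P), x - a]}

/-- The asymptotic `ρ_a`-nonregular values. -/
def Sa (a : Fin n → ℝ) : Set ℝ :=
  {t | ∃ x : ℕ → Fin n → ℝ, (∀ j, x j ∈ Milnor P a) ∧ Tendsto (fun j => ‖x j‖) atTop atTop ∧
    Tendsto (fun j => eval (x j) P) atTop (𝓝 t)}

def Sinf : Set ℝ := ⋂ a, Sa P a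

noncomputable def Q : MvPolynomial (Fin 2) ℝ :=
  (X 1 ^ 2 - 1) * (X 0 ^ 2 * (X 1 ^ 2 - 1) ^ 2 + C 3 * X 0 * (X 1 ^ 2 - 1) + C 3)

lemma ev : (fun x => eval x Q) = f := by
  ext x; simp [Q, f, F]

lemma triv : TrivOver f (f ⁻¹' D) D := by
  let V : TopologicalSpace.Opens ℝ := ⟨{v | v ≠ 0}, isOpen_ne⟩
  let Ψ := Function.invFunOn (fun p => (f p, G p)) (f ⁻¹' D)
  have hs : ∀ z : ℝ × V, z ∈ D ×ˢ univ → ∃ p ∈ f ⁻¹' D, (f p, G p) = (z.1, z.2.1) := fun z hz => by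
    obtain ⟨p, h1, h2⟩ := surj hz.1 z.2.2
    exact ⟨p, show f p ∈ D from h1 ▸ hz.1, by rw [h1, h2]⟩
  refine ⟨ℝ, inferInstance, inferInstance, V, inferInstance, inferInstance, inferInstance,
    fun p => (f p, ⟨G p, G_ne p⟩), fun z => Ψ (z.1, z.2.1), fun p hp => ?_, fun z hz => ?_,
    fun p hp => ⟨hp, trivial⟩, fun z hz => Function.invFunOn_mem (hs z hz),
    ⟨fun p hp => inj.leftInvOn_invFunOn hp, fun z hz => ?_⟩, fun _ _ => rfl⟩
  · refine (cf.contMDiff.contMDiffAt.prodMk ?_).contMDiffWithinAt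
    exact (ContMDiffAt.subtypeVal_comp_iff V _ p).1 (cG hp).contMDiffAt
  · obtain ⟨p, hp, h⟩ := hs z hz
    have h1 : ContDiffAt ℝ ∞ Ψ (z.1, z.2.1) := h ▸ cInv hp
    refine (h1.contMDiffAt.comp z (f := fun z : ℝ × V => (z.1, z.2.1)) ?_).contMDiffWithinAt
    exact contMDiffAt_fst.prodMk_space
      ((contMDiff_subtype_val (U := V)).contMDiffAt.comp z contMDiffAt_snd)
  · have := Prod.mk.inj (Function.invFunOn_eq (f := fun p => (f p, G p)) (hs z hz))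
    exact Prod.ext this.1 (Subtype.ext this.2)

theorem result : ∃ P : MvPolynomial (Fin 2) ℝ, 0 ∈ Sinf P ∧ 0 ∉ Binf P := by
  refine ⟨Q, mem_iInter.2 fun a => ?_, not_not.2 ⟨∅, isCompact_empty, 3 / 8, by norm_num,
    fun t ht => ⟨D, isOpen_Ioo, ht, subset_rfl, by rw [ev, sdiff_empty]; exact triv⟩⟩⟩
  obtain ⟨p, h1, h2, h3⟩ := milnor a
  refine ⟨p, fun j h => (h1 j).1 ?_, h2, by rw [← ev] at h3; exact h3⟩
  have e0 : eval (p j) (pderiv 0 Q) =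
      (p j 1 ^ 2 - 1) ^ 2 * (2 * p j 0 * (p j 1 ^ 2 - 1) + 3) := by
    simp [Q, Derivation.leibniz_pow]; ring
  have e1 : eval (p j) (pderiv 1 Q) = 6 * p j 1 * (p j 0 * (p j 1 ^ 2 - 1) + 1) ^ 2 := by
    simp [Q, Derivation.leibniz_pow]; ring
  have := (LinearIndependent.pair_iff.1 h (p j 0 - a 0) (-eval (p j) (pderiv 0 Q)) (by
    ext i; fin_cases i
    · simp; ring
    · simp [e0, e1]; linear_combination -(h1 j).2)).2
  rw [← e0]; exact neg_eq_zero.1 this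

end Pool.Agent.Results.MP_025584_ag.Counter
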